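import Mathlib
import Pool.Agent.Helper59.EqMeas.Final

/-!
Equilibrium measures on the line that are Hausdorff measures: full answer (negative), in the terms
of the problem file: measures on the complex plane, covers by open discs, a strictly increasing
dimension function.
-/

set_option autoImplicit false

open Filter Topology Set MeasureTheory
open scoped ENNReal NNReal

namespace Pool.Agent.Results.MP_816d1e_an.Full

/-- The positive part of `log (1 / |z - w|)`; it is `⊤` for `z = w`. -/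
noncomputable def kPos (z w : ℂ) : ℝ≥0∞ :=
  if z = w then (⊤ : ℝ≥0∞) else ENNReal.ofReal (Real.log (1 / ‖z - w‖))

/-- The negative part of `log (1 / |z - w|)`; it is `0` for `z = w`. -/
noncomputable def kNeg (z w : ℂ) : ℝ≥0∞ := ENNReal.ofReal (-Real.log (1 / ‖z - w‖))

/-- The logarithmic energy: the double integral of the positive part minus the double integral of
the negative part of `log (1 / |z - w|)`. For a probability measure carried by a compact set the
second integral is finite. -/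
noncomputable def energy (ν : Measure ℂ) : EReal :=
  ((∫⁻ z, ∫⁻ w, kPos z w ∂ν ∂ν : ℝ≥0∞) : EReal) - ((∫⁻ z, ∫⁻ w, kNeg z w ∂ν ∂ν : ℝ≥0∞) : EReal)

/-- `μ` is a Borel probability measure carried by `K`. -/
def CarriedBy (μ : Measure ℂ) (K : Set ℂ) : Prop := IsProbabilityMeasure μ ∧ μ Kᶜ = 0

/-- `K` has positive logarithmic capacity: it carries a probability measure of finite energy. -/
def NonPolar (K : Set ℂ) : Prop := ∃ ν : Measure ℂ, CarriedBy ν K ∧ energy ν < ⊤

/-- `μ` minimises the logarithmic energy among the Borel probability measures carried by `K`. -/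
def IsEquilibrium (μ : Measure ℂ) (K : Set ℂ) : Prop :=
  CarriedBy μ K ∧ ∀ ν : Measure ℂ, CarriedBy ν K → energy μ ≤ energy ν

/-- The infimum of `∑ h (r_j)` over the countable covers of `E` by open discs `B (z_j, r_j)` of
radius at most `δ`. -/
noncomputable def LamDelta (h : ℝ → ℝ) (δ : ℝ) (E : Set ℂ) : ℝ≥0∞ :=
  ⨅ (z : ℕ → ℂ) (r : ℕ → ℝ) (_ : ∀ j, 0 ≤ r j ∧ r j ≤ δ) (_ : E ⊆ ⋃ j, Metric.ball (z j) (r j)),
    ∑' j, ENNReal.ofReal (h (r j))

/-- The `h`-Hausdorff measure of `E`, the limit (supremum) of `LamDelta h δ E` as `δ → 0`. -/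
noncomputable def Lam (h : ℝ → ℝ) (E : Set ℂ) : ℝ≥0∞ := ⨆ (δ : ℝ) (_ : 0 < δ), LamDelta h δ E

/-- A dimension function: strictly increasing and continuous on `[0, ∞)`, with `h 0 = 0`. -/
def IsDimensionFunction (h : ℝ → ℝ) : Prop :=
  StrictMonoOn h (Ici 0) ∧ ContinuousOn h (Ici 0) ∧ h 0 = 0

open Pool.Agent.Helper59.EqMeas

/-! ### Hausdorff measures -/

/-- The dimension function of the example. -/
noncomputable def hh (γ : ℕ → ℝ) (r : ℝ) : ℝ := (h γ (2 * r).toNNReal : ℝ) * (1 + 2 * r)

lemma LamDelta_anti (f : ℝ → ℝ) {δ δ' : ℝ} (hd : δ ≤ δ') (E : Set ℂ) :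
    LamDelta f δ' E ≤ LamDelta f δ E := by
  unfold LamDelta
  refine le_iInf fun z => le_iInf fun r => le_iInf fun hr => le_iInf fun hE => ?_
  exact iInf_le_of_le z (iInf_le_of_le r (iInf_le_of_le (fun j => ⟨(hr j).1, (hr j).2.trans hd⟩)
    (iInf_le_of_le hE le_rfl)))

lemma h_pos {γ : ℕ → ℝ} (hγ : Good γ) {t : ℝ≥0} (ht : 0 < t) : 0 < h γ t := by
  by_contra hc
  have h0 : h γ t = 0 := le_antisymm (not_lt.1 hc) zero_le
  have hn : ∀ n : ℕ, h γ (n * t) = 0 := by
    intro n
    induction n with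
    | zero => simp [h_zero hγ]
    | succ n ih =>
      have := h_add_le hγ (n * t) t
      rw [ih, h0, add_zero] at this
      have e : ((n + 1 : ℕ) : ℝ≥0) * t = n * t + t := by push_cast; ring
      rw [e]
      exact le_antisymm this zero_le
  obtain ⟨n, hn2⟩ := exists_nat_gt (2 / (t : ℝ))
  have h1 := hn n
  have ht' : (0 : ℝ) < t := by exact_mod_cast ht
  have h2 : (1 : ℝ≥0∞) ≤ H γ ((n * t : ℝ≥0) : ℝ) := by
    refine le_trans ?_ (le_iSup (fun x => mu γ (Icc x (x + ((n * t : ℝ≥0) : ℝ)))) (-1))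
    have hsub : K γ ⊆ Icc (-1) (-1 + ((n * t : ℝ≥0) : ℝ)) := by
      rintro _ ⟨ω, rfl⟩
      have h3 := abs_le.1 (abs_X_le hγ 0 ω)
      refine ⟨h3.1, ?_⟩
      have h4 : 2 < (n : ℝ) * t := by
        rwa [div_lt_iff₀ ht'] at hn2
      push_cast
      linarith [h3.2]
    have := isProbabilityMeasure_mu hγ
    have hKm : MeasurableSet (K γ) := (isCompact_K hγ).measurableSet
    have h5 : mu γ (K γ) = 1 := by
      rw [← prob_compl_eq_zero_iff hKm]; exact mu_compl_K hγ
    rw [← h5]
    exact measure_mono hsub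
  rw [← coe_h hγ, h1] at h2
  simp at h2

lemma hh_dim {γ : ℕ → ℝ} (hγ : Good γ) : IsDimensionFunction (hh γ) := by
  refine ⟨?_, ?_, ?_⟩
  · intro a ha b hb hab
    rw [mem_Ici] at ha hb
    unfold hh
    have h1 : (h γ (2 * a).toNNReal : ℝ) ≤ h γ (2 * b).toNNReal := by
      have := h_mono hγ (Real.toNNReal_le_toNNReal (show 2 * a ≤ 2 * b by linarith))
      exact_mod_cast this
    have h2 : (0 : ℝ) < h γ (2 * b).toNNReal := by
      have := h_pos hγ (t := (2 * b).toNNReal) (by rw [Real.toNNReal_pos]; linarith)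
      exact_mod_cast this
    have h3 : (0 : ℝ) ≤ h γ (2 * a).toNNReal := NNReal.coe_nonneg _
    nlinarith
  · have h1 : Continuous (hh γ) := by
      unfold hh
      apply Continuous.mul
      · exact NNReal.continuous_coe.comp ((h_continuous hγ).comp
          (continuous_real_toNNReal.comp (continuous_const.mul continuous_id)))
      · fun_prop
    exact h1.continuousOn
  · unfold hh
    simp [h_zero hγ]

lemma hh_nonneg (γ : ℕ → ℝ) {r : ℝ} (hr : 0 ≤ r) : 0 ≤ hh γ r := by
  unfold hh
  have : (0 : ℝ) ≤ h γ (2 * r).toNNReal := NNReal.coe_nonneg _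
  positivity

/-- Lower bound of the disc measure. -/
lemma mkMetric_le_Lam {γ : ℕ → ℝ} (hγ : Good γ) (E : Set ℝ) :
    Measure.mkMetric (gauge γ) E ≤ Lam (hh γ) ((fun x : ℝ => (x : ℂ)) '' E) := by
  rw [Measure.mkMetric_apply]
  refine iSup_le fun ρ => iSup_le fun hρ => ?_
  -- choose the radius
  obtain ⟨δ, hδ, hδρ⟩ : ∃ δ : ℝ, 0 < δ ∧ ENNReal.ofReal (2 * δ) ≤ ρ := by
    rcases eq_or_ne ρ ⊤ with h1 | h1
    · exact ⟨1, one_pos, by rw [h1]; exact le_top⟩
    · refine ⟨ρ.toReal / 2, by have := ENNReal.toReal_pos hρ.ne' h1; positivity, ?_⟩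
      rw [mul_div_cancel₀ _ (by norm_num : (2 : ℝ) ≠ 0), ENNReal.ofReal_toReal h1]
  refine le_trans ?_ (le_iSup_of_le δ (le_iSup_of_le hδ le_rfl))
  unfold LamDelta
  refine le_iInf fun z => le_iInf fun r => le_iInf fun hr => le_iInf fun hE => ?_
  let t : ℕ → Set ℝ := fun j => (fun x : ℝ => (x : ℂ)) ⁻¹' Metric.ball (z j) (r j)
  have hdiam : ∀ j, Metric.ediam (t j) ≤ ENNReal.ofReal (2 * r j) := by
    intro j
    apply Metric.ediam_le
    intro x hx y hy
    rw [edist_dist]
    apply ENNReal.ofReal_le_ofReal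
    have h1 : dist (x : ℂ) (z j) < r j := hx
    have h2 : dist (y : ℂ) (z j) < r j := hy
    have h3 : dist x y = dist (x : ℂ) (y : ℂ) := (Complex.isometry_ofReal.dist_eq x y).symm
    rw [h3]
    have h4 := dist_triangle_right (x : ℂ) (y : ℂ) (z j)
    linarith
  refine iInf_le_of_le t (iInf_le_of_le ?_ (iInf_le_of_le ?_ ?_))
  · intro x hx
    have := hE ⟨x, hx, rfl⟩
    rw [mem_iUnion] at this ⊢
    exact this
  · intro j
    refine (hdiam j).trans (le_trans (ENNReal.ofReal_le_ofReal ?_) hδρ)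
    linarith [(hr j).2]
  · apply ENNReal.tsum_le_tsum
    intro j
    refine iSup_le fun _ => ?_
    unfold Pool.Agent.Helper59.EqMeas.gauge hh
    have h0 := (hr j).1
    have h1 : (Metric.ediam (t j)).toNNReal ≤ (2 * r j).toNNReal := by
      have := ENNReal.toNNReal_mono ENNReal.ofReal_ne_top (hdiam j)
      rwa [ENNReal.ofReal, ENNReal.toNNReal_coe] at this
    have h2 := h_mono hγ h1
    rw [← ENNReal.ofReal_coe_nnreal]
    apply ENNReal.ofReal_le_ofReal
    have h3 : (h γ (Metric.ediam (t j)).toNNReal : ℝ) ≤ h γ (2 * r j).toNNReal := by exact_mod_cast h2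
    have h4 : (0 : ℝ) ≤ h γ (2 * r j).toNNReal := NNReal.coe_nonneg _
    nlinarith

/-- Upper bound of the disc measure. -/
lemma Lam_le_mkMetric {γ : ℕ → ℝ} (hγ : Good γ) (E : Set ℝ) :
    Lam (hh γ) ((fun x : ℝ => (x : ℂ)) '' E) ≤ Measure.mkMetric (gauge γ) E := by
  set M := Measure.mkMetric (gauge γ) E with hM
  rcases eq_or_ne M ⊤ with hMt | hMt
  · rw [hMt]; exact le_top
  refine iSup_le fun δ => iSup_le fun hδ => ?_
  -- it suffices to bound by (1 + 2 η) (M + η) for all small η
  have key : ∀ η : ℝ, 0 < η → η ≤ δ →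
      LamDelta (hh γ) δ ((fun x : ℝ => (x : ℂ)) '' E) ≤
        ENNReal.ofReal (1 + 2 * η) * (M + ENNReal.ofReal (2 * η)) := by
    intro η hη hηδ
    refine (LamDelta_anti _ hηδ _).trans ?_
    -- a good cover by sets of diameter at most η
    have h1 : (⨅ (t : ℕ → Set ℝ) (_ : E ⊆ iUnion t) (_ : ∀ n, Metric.ediam (t n) ≤ ENNReal.ofReal η),
        ∑' n, ⨆ _ : (t n).Nonempty, gauge γ (Metric.ediam (t n))) < M + ENNReal.ofReal η := by
      refine lt_of_le_of_lt ?_ (ENNReal.lt_add_right hMt (by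
        rw [Ne, ENNReal.ofReal_eq_zero, not_le]; exact hη))
      rw [hM, Measure.mkMetric_apply]
      exact le_iSup_of_le (ENNReal.ofReal η) (le_iSup_of_le (by rw [ENNReal.ofReal_pos]; exact hη) le_rfl)
    simp only [iInf_lt_iff] at h1
    obtain ⟨t, htE, htd, hts⟩ := h1
    -- radii
    have hrad : ∀ n : ℕ, ∃ r : ℝ, 0 ≤ r ∧ r ≤ η ∧ (∃ z : ℂ, (fun x : ℝ => (x : ℂ)) '' t n ⊆ Metric.ball z r) ∧
        (h γ (2 * r).toNNReal : ℝ≥0∞) ≤ (⨆ _ : (t n).Nonempty, gauge γ (Metric.ediam (t n))) +
          ENNReal.ofReal (η * (1 / 2) ^ (n + 1)) := by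
      intro n
      rcases (t n).eq_empty_or_nonempty with hem | hne
      · refine ⟨0, le_rfl, hη.le, ⟨0, by rw [hem]; simp⟩, ?_⟩
        simp [h_zero hγ]
      obtain ⟨x, hx⟩ := hne
      have hfin : Metric.ediam (t n) ≠ ⊤ := ne_top_of_le_ne_top ENNReal.ofReal_ne_top (htd n)
      set d : ℝ := (Metric.ediam (t n)).toReal with hd
      have hd0 : 0 ≤ d := ENNReal.toReal_nonneg
      have hdη : d ≤ η := by
        have := ENNReal.toReal_mono ENNReal.ofReal_ne_top (htd n)
        rwa [ENNReal.toReal_ofReal hη.le] at this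
      -- continuity of h
      have hcont : Continuous (fun u : ℝ => (h γ u.toNNReal : ℝ)) :=
        NNReal.continuous_coe.comp ((h_continuous hγ).comp continuous_real_toNNReal)
      have hpos : 0 < η * (1 / 2 : ℝ) ^ (n + 1) := by positivity
      obtain ⟨u, hu0, hu⟩ : ∃ u : ℝ, 0 < u ∧ ∀ y, |y - d| < u →
          |(h γ y.toNNReal : ℝ) - h γ d.toNNReal| < η * (1 / 2 : ℝ) ^ (n + 1) := by
        have := Metric.continuous_iff.1 hcont d _ hpos
        obtain ⟨u, hu0, hu⟩ := this
        exact ⟨u, hu0, fun y hy => by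
          have := hu y (by rw [Real.dist_eq]; exact hy)
          rwa [Real.dist_eq] at this⟩
      set e : ℝ := min (u / 2) (η / 2) with he
      have he0 : 0 < e := lt_min (by positivity) (by positivity)
      have heu : e < u := lt_of_le_of_lt (min_le_left _ _) (by linarith)
      have heη : e ≤ η / 2 := min_le_right _ _
      refine ⟨(d + e) / 2, by positivity, by linarith, ?_, ?_⟩
      · -- the set is contained in an interval of length d
        have hb : Bornology.IsBounded (t n) := Metric.isBounded_iff_ediam_ne_top.2 hfin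
        have hbb : BddBelow (t n) := hb.bddBelow
        refine ⟨((sInf (t n) + d / 2 : ℝ) : ℂ), ?_⟩
        rintro _ ⟨y, hy, rfl⟩
        rw [Metric.mem_ball]
        have e1 : dist ((y : ℝ) : ℂ) ((sInf (t n) + d / 2 : ℝ) : ℂ) = dist y (sInf (t n) + d / 2) :=
          Complex.isometry_ofReal.dist_eq _ _
        rw [e1, Real.dist_eq]
        have h2 : sInf (t n) ≤ y := csInf_le hbb hy
        have h3 : y - d ≤ sInf (t n) := by
          apply le_csInf ⟨x, hx⟩
          intro w hw
          have h4 : dist y w ≤ d := by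
            rw [dist_edist, hd]
            exact ENNReal.toReal_mono hfin (Metric.edist_le_ediam_of_mem hy hw)
          rw [Real.dist_eq] at h4
          linarith [(abs_le.1 h4).2]
        rw [abs_lt]
        constructor <;> linarith
      · have h5 : (2 : ℝ) * ((d + e) / 2) = d + e := by ring
        rw [h5]
        have h6 := hu (d + e) (by rw [add_sub_cancel_left, abs_of_pos he0]; exact heu)
        rw [abs_lt] at h6
        have h7 : (h γ (d + e).toNNReal : ℝ) ≤ h γ d.toNNReal + η * (1 / 2) ^ (n + 1) := by linarith [h6.2]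
        have h8 : (⨆ _ : (t n).Nonempty, gauge γ (Metric.ediam (t n))) = (h γ d.toNNReal : ℝ≥0∞) := by
          rw [iSup_pos ⟨x, hx⟩]
          unfold Pool.Agent.Helper59.EqMeas.gauge
          congr 2
          rw [hd, ENNReal.toReal, Real.toNNReal_coe]
        rw [h8, ← ENNReal.ofReal_coe_nnreal, ← ENNReal.ofReal_coe_nnreal,
          ← ENNReal.ofReal_add (NNReal.coe_nonneg _) hpos.le]
        exact ENNReal.ofReal_le_ofReal h7
    choose r hr0 hrη hball hrh using hrad
    choose z hz using hball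
    unfold LamDelta
    refine iInf_le_of_le z (iInf_le_of_le r (iInf_le_of_le (fun j => ⟨hr0 j, hrη j⟩)
      (iInf_le_of_le ?_ ?_)))
    · rintro _ ⟨y, hy, rfl⟩
      have := htE hy
      rw [mem_iUnion] at this ⊢
      obtain ⟨j, hj⟩ := this
      exact ⟨j, hz j ⟨y, hj, rfl⟩⟩
    · calc ∑' j, ENNReal.ofReal (hh γ (r j))
          ≤ ∑' j, ENNReal.ofReal (1 + 2 * η) *
            ((⨆ _ : (t j).Nonempty, gauge γ (Metric.ediam (t j))) +
              ENNReal.ofReal (η * (1 / 2) ^ (j + 1))) := by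
            apply ENNReal.tsum_le_tsum
            intro j
            unfold hh
            rw [mul_comm, ENNReal.ofReal_mul (by have := hr0 j; positivity)]
            apply mul_le_mul' (ENNReal.ofReal_le_ofReal (by linarith [hrη j]))
            rw [ENNReal.ofReal_coe_nnreal]
            exact hrh j
        _ = ENNReal.ofReal (1 + 2 * η) * (∑' j, (⨆ _ : (t j).Nonempty, gauge γ (Metric.ediam (t j))) +
              ∑' j : ℕ, ENNReal.ofReal (η * (1 / 2) ^ (j + 1))) := by
            rw [ENNReal.tsum_mul_left, ENNReal.tsum_add]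
        _ ≤ ENNReal.ofReal (1 + 2 * η) * (M + ENNReal.ofReal (2 * η)) := by
            apply mul_le_mul' le_rfl
            have h9 : ∑' j : ℕ, ENNReal.ofReal (η * (1 / 2) ^ (j + 1)) = ENNReal.ofReal η := by
              rw [← ENNReal.ofReal_tsum_of_nonneg (fun n => by positivity)]
              · congr 1
                rw [tsum_mul_left]
                have : ∑' j : ℕ, (1 / 2 : ℝ) ^ (j + 1) = 1 := by
                  simp_rw [pow_succ]
                  rw [tsum_mul_right, tsum_geometric_of_lt_one (by norm_num) (by norm_num)]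
                  norm_num
                rw [this, mul_one]
              · apply Summable.mul_left
                simp_rw [pow_succ]
                apply Summable.mul_right
                exact summable_geometric_of_lt_one (by norm_num) (by norm_num)
            rw [h9]
            have h10 : ENNReal.ofReal (2 * η) = ENNReal.ofReal η + ENNReal.ofReal η := by
              rw [← ENNReal.ofReal_add hη.le hη.le]; congr 1; ring
            rw [h10, ← add_assoc]
            exact add_le_add hts.le le_rfl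
  -- let η → 0
  have hlim : Tendsto (fun η : ℝ => ENNReal.ofReal (1 + 2 * η) * (M + ENNReal.ofReal (2 * η)))
      (𝓝[>] 0) (𝓝 (ENNReal.ofReal (1 + 2 * 0) * (M + ENNReal.ofReal (2 * 0)))) := by
    apply Tendsto.mono_left _ nhdsWithin_le_nhds
    apply ENNReal.Tendsto.mul
    · exact (ENNReal.continuous_ofReal.comp (by fun_prop : Continuous fun η : ℝ => 1 + 2 * η)).tendsto 0
    · left; simp
    · exact Tendsto.const_add _
        ((ENNReal.continuous_ofReal.comp (by fun_prop : Continuous fun η : ℝ => 2 * η)).tendsto 0)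
    · right; simp
  simp only [mul_zero, add_zero, ENNReal.ofReal_one, one_mul, ENNReal.ofReal_zero] at hlim
  refine ge_of_tendsto hlim ?_
  filter_upwards [Ioc_mem_nhdsGT hδ] with η hη
  exact key η hη.1 hη.2

/-! ### Energies -/

/-- The logarithmic kernel on the plane, shifted by `log 2`. -/
noncomputable def kapC (z w : ℂ) : ℝ≥0∞ := kap (Real.log 2) z.re w.re

lemma measurable_kPos : Measurable (Function.uncurry kPos) := by
  unfold kPos Function.uncurry
  apply Measurable.ite
  · exact measurableSet_eq_fun measurable_fst measurable_snd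
  · exact measurable_const
  · apply ENNReal.measurable_ofReal.comp
    apply Real.measurable_log.comp
    exact measurable_const.div (measurable_fst.sub measurable_snd).norm

lemma measurable_kNeg : Measurable (Function.uncurry kNeg) := by
  unfold kNeg Function.uncurry
  apply ENNReal.measurable_ofReal.comp
  apply Measurable.neg
  apply Real.measurable_log.comp
  exact measurable_const.div (measurable_fst.sub measurable_snd).norm

lemma measurable_kapC : Measurable (Function.uncurry kapC) := by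
  unfold kapC
  exact (measurable_kap _).comp ((Complex.measurable_re.comp measurable_fst).prodMk
    (Complex.measurable_re.comp measurable_snd))

/-- The pointwise identity of the kernels on the real segment `[-1, 1]`. -/
lemma kernel_identity {z w : ℂ} (hz : z.im = 0) (hw : w.im = 0) (hz1 : |z.re| ≤ 1)
    (hw1 : |w.re| ≤ 1) : kapC z w + kNeg z w = kPos z w + ENNReal.ofReal (Real.log 2) := by
  have hnorm : ‖z - w‖ = dist z.re w.re := by
    have h1 : z - w = ((z.re - w.re : ℝ) : ℂ) := by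
      apply Complex.ext
      · simp
      · simp [hz, hw]
    rw [h1, Complex.norm_real, Real.dist_eq, Real.norm_eq_abs]
  have hlog2 : 0 ≤ Real.log 2 := Real.log_nonneg (by norm_num)
  unfold kapC kap kNeg kPos
  rcases eq_or_ne z w with h | h
  · subst h
    simp
  · have hre : z.re ≠ w.re := by
      intro h1
      exact h (Complex.ext h1 (by rw [hz, hw]))
    rw [if_neg hre, if_neg h, hnorm]
    set d := dist z.re w.re with hd
    have hd0 : 0 < d := dist_pos.2 hre
    have hd2 : d ≤ 2 := by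
      rw [hd, Real.dist_eq]
      calc |z.re - w.re| ≤ |z.re| + |w.re| := abs_sub _ _
        _ ≤ 2 := by linarith
    have hl : Real.log d ≤ Real.log 2 := Real.log_le_log hd0 hd2
    rw [one_div, Real.log_inv, neg_neg]
    rcases le_total (Real.log d) 0 with h1 | h1
    · rw [ENNReal.ofReal_of_nonpos h1, add_zero, ← ENNReal.ofReal_add (by linarith) hlog2]
      congr 1
      ring
    · rw [ENNReal.ofReal_of_nonpos (show -Real.log d ≤ 0 by linarith), zero_add,
        ← ENNReal.ofReal_add (by linarith) h1]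
      congr 1
      ring

lemma kNeg_le {z w : ℂ} (hz : z.im = 0) (hw : w.im = 0) (hz1 : |z.re| ≤ 1)
    (hw1 : |w.re| ≤ 1) : kNeg z w ≤ ENNReal.ofReal (Real.log 2) := by
  have hnorm : ‖z - w‖ = dist z.re w.re := by
    have h1 : z - w = ((z.re - w.re : ℝ) : ℂ) := by
      apply Complex.ext
      · simp
      · simp [hz, hw]
    rw [h1, Complex.norm_real, Real.dist_eq, Real.norm_eq_abs]
  unfold kNeg
  apply ENNReal.ofReal_le_ofReal
  rw [hnorm, one_div, Real.log_inv, neg_neg]
  rcases eq_or_ne z.re w.re with h | h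
  · rw [h, dist_self, Real.log_zero]
    exact Real.log_nonneg (by norm_num)
  · apply Real.log_le_log (dist_pos.2 h)
    rw [Real.dist_eq]
    calc |z.re - w.re| ≤ |z.re| + |w.re| := abs_sub _ _
      _ ≤ 2 := by linarith

/-- The copy of the Cantor set in the plane. -/
def KC (γ : ℕ → ℝ) : Set ℂ := (fun x : ℝ => (x : ℂ)) '' K γ

lemma mem_KC {γ : ℕ → ℝ} (hγ : Good γ) {z : ℂ} (hz : z ∈ KC γ) :
    z.im = 0 ∧ |z.re| ≤ 1 ∧ z.re ∈ K γ := by
  obtain ⟨x, hx, rfl⟩ := hz
  obtain ⟨ω, hω⟩ := hx
  refine ⟨by simp, ?_, ?_⟩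
  · rw [Complex.ofReal_re, ← hω]; exact abs_X_le hγ 0 ω
  · rw [Complex.ofReal_re]; exact ⟨ω, hω⟩

lemma ae_mem {ν : Measure ℂ} {S : Set ℂ} (h : ν Sᶜ = 0) : ∀ᵐ z ∂ν, z ∈ S := by
  rw [ae_iff]; exact h

/-- The relation between the two forms of the energy. -/
lemma energy_eq {γ : ℕ → ℝ} (hγ : Good γ) {ν : Measure ℂ} (hν : CarriedBy ν (KC γ)) :
    energy ν = ((∫⁻ z, ∫⁻ w, kapC z w ∂ν ∂ν : ℝ≥0∞) : EReal) - ((Real.log 2 : ℝ) : EReal) := by
  obtain ⟨hp, h0⟩ := hν
  have hae := ae_mem h0
  set a := ∫⁻ z, ∫⁻ w, kPos z w ∂ν ∂ν with ha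
  set b := ∫⁻ z, ∫⁻ w, kNeg z w ∂ν ∂ν with hb
  set c := ∫⁻ z, ∫⁻ w, kapC z w ∂ν ∂ν with hc
  have hmk : ∀ {k : ℂ → ℂ → ℝ≥0∞}, Measurable (Function.uncurry k) →
      Measurable fun z => ∫⁻ w, k z w ∂ν := fun hk => hk.lintegral_prod_right'
  have hmk' : ∀ {k : ℂ → ℂ → ℝ≥0∞}, Measurable (Function.uncurry k) → ∀ z,
      Measurable fun w => k z w := fun hk z => hk.comp (measurable_const.prodMk measurable_id)
  have h1 : c + b = a + ENNReal.ofReal (Real.log 2) := by
    rw [ha, hb, hc, ← lintegral_add_left (hmk measurable_kapC)]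
    have h2 : ∀ z, ∫⁻ w, kapC z w ∂ν + ∫⁻ w, kNeg z w ∂ν = ∫⁻ w, (kapC z w + kNeg z w) ∂ν :=
      fun z => (lintegral_add_left (hmk' measurable_kapC z) _).symm
    simp_rw [h2]
    have h3 : ∫⁻ z, ∫⁻ w, (kapC z w + kNeg z w) ∂ν ∂ν =
        ∫⁻ z, ∫⁻ w, (kPos z w + ENNReal.ofReal (Real.log 2)) ∂ν ∂ν := by
      apply lintegral_congr_ae
      filter_upwards [hae] with z hz
      apply lintegral_congr_ae
      filter_upwards [hae] with w hw
      exact kernel_identity (mem_KC hγ hz).1 (mem_KC hγ hw).1 (mem_KC hγ hz).2.1 (mem_KC hγ hw).2.1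
    rw [h3]
    have h4 : ∀ z, ∫⁻ w, (kPos z w + ENNReal.ofReal (Real.log 2)) ∂ν =
        ∫⁻ w, kPos z w ∂ν + ENNReal.ofReal (Real.log 2) := by
      intro z
      rw [lintegral_add_right _ measurable_const, lintegral_const, measure_univ, mul_one]
    simp_rw [h4]
    rw [lintegral_add_right _ measurable_const, lintegral_const, measure_univ, mul_one]
  have h5 : b ≤ ENNReal.ofReal (Real.log 2) := by
    rw [hb]
    calc ∫⁻ z, ∫⁻ w, kNeg z w ∂ν ∂ν ≤ ∫⁻ z, ∫⁻ w, ENNReal.ofReal (Real.log 2) ∂ν ∂ν := by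
          apply lintegral_mono_ae
          filter_upwards [hae] with z hz
          apply lintegral_mono_ae
          filter_upwards [hae] with w hw
          exact kNeg_le (mem_KC hγ hz).1 (mem_KC hγ hw).1 (mem_KC hγ hz).2.1 (mem_KC hγ hw).2.1
      _ = ENNReal.ofReal (Real.log 2) := by simp
  have hbt : b ≠ ⊤ := ne_top_of_le_ne_top ENNReal.ofReal_ne_top h5
  have hlog2 : 0 ≤ Real.log 2 := Real.log_nonneg (by norm_num)
  unfold energy
  rw [← ha, ← hb]
  rcases eq_or_ne a ⊤ with hat | hat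
  · have hct : c = ⊤ := by
      rw [hat, top_add] at h1
      rcases ENNReal.add_eq_top.1 h1 with h | h
      · exact h
      · exact absurd h hbt
    obtain ⟨b', hb'⟩ : ∃ b' : ℝ≥0, b = b' := ⟨b.toNNReal, (ENNReal.coe_toNNReal hbt).symm⟩
    rw [hat, hct, hb', EReal.coe_ennreal_top, EReal.coe_nnreal_eq_coe_real, EReal.top_sub_coe,
      EReal.top_sub_coe]
  · have hct : c ≠ ⊤ := by
      intro h
      rw [h, top_add] at h1
      exact (ENNReal.add_ne_top.2 ⟨hat, ENNReal.ofReal_ne_top⟩) h1.symm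
    have h6 := congrArg ENNReal.toReal h1
    rw [ENNReal.toReal_add hct hbt, ENNReal.toReal_add hat ENNReal.ofReal_ne_top,
      ENNReal.toReal_ofReal hlog2] at h6
    rw [← ENNReal.ofReal_toReal hat, ← ENNReal.ofReal_toReal hbt, ← ENNReal.ofReal_toReal hct]
    rw [EReal.coe_ennreal_ofReal, EReal.coe_ennreal_ofReal, EReal.coe_ennreal_ofReal,
      max_eq_left ENNReal.toReal_nonneg, max_eq_left ENNReal.toReal_nonneg,
      max_eq_left ENNReal.toReal_nonneg, ← EReal.coe_sub, ← EReal.coe_sub]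
    congr 1
    linarith

/-- The equilibrium measure of the example. -/
noncomputable def muC (γ : ℕ → ℝ) : Measure ℂ := (mu γ).map (fun x : ℝ => (x : ℂ))

lemma measurable_coe : Measurable (fun x : ℝ => (x : ℂ)) := Complex.measurable_ofReal

lemma isCompact_KC {γ : ℕ → ℝ} (hγ : Good γ) : IsCompact (KC γ) :=
  (isCompact_K hγ).image Complex.continuous_ofReal

lemma muC_carried {γ : ℕ → ℝ} (hγ : Good γ) : CarriedBy (muC γ) (KC γ) := by
  have := isProbabilityMeasure_mu hγ
  refine ⟨Measure.isProbabilityMeasure_map measurable_coe.aemeasurable, ?_⟩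
  unfold muC
  rw [Measure.map_apply measurable_coe (isCompact_KC hγ).measurableSet.compl]
  apply measure_mono_null _ (mu_compl_K hγ)
  intro x hx hxK
  exact hx ⟨x, hxK, rfl⟩

lemma kapC_map {γ : ℕ → ℝ} (hγ : Good γ) :
    ∫⁻ z, ∫⁻ w, kapC z w ∂(muC γ) ∂(muC γ) =
      ∫⁻ x, ∫⁻ y, kap (Real.log 2) x y ∂(mu γ) ∂(mu γ) := by
  have := isProbabilityMeasure_mu hγ
  have := (muC_carried hγ).1
  have h1 : ∀ z, ∫⁻ w, kapC z w ∂(muC γ) = ∫⁻ y, kap (Real.log 2) z.re y ∂(mu γ) := by
    intro z
    unfold muC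
    have h2 : Measurable fun w => kapC z w :=
      measurable_kapC.comp (measurable_const.prodMk measurable_id)
    rw [lintegral_map h2 measurable_coe]
    rfl
  simp_rw [h1]
  unfold muC
  rw [lintegral_map _ measurable_coe]
  · rfl
  · have h2 : Measurable fun x : ℝ => ∫⁻ y, kap (Real.log 2) x y ∂(mu γ) :=
      (measurable_kap _).lintegral_prod_right'
    exact h2.comp Complex.measurable_re

lemma kapC_re {γ : ℕ → ℝ} (hγ : Good γ) {ν : Measure ℂ} (hν : CarriedBy ν (KC γ)) :
    ∃ ν₀ : Measure ℝ, IsProbabilityMeasure ν₀ ∧ ν₀ (K γ)ᶜ = 0 ∧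
      ∫⁻ z, ∫⁻ w, kapC z w ∂ν ∂ν = ∫⁻ x, ∫⁻ y, kap (Real.log 2) x y ∂ν₀ ∂ν₀ := by
  obtain ⟨hp, h0⟩ := hν
  refine ⟨ν.map Complex.re, Measure.isProbabilityMeasure_map Complex.measurable_re.aemeasurable, ?_, ?_⟩
  · rw [Measure.map_apply Complex.measurable_re (isCompact_K hγ).measurableSet.compl]
    apply measure_mono_null _ h0
    intro z hz hzK
    exact hz (mem_KC hγ hzK).2.2
  · have hp' : IsProbabilityMeasure (ν.map Complex.re) :=
      Measure.isProbabilityMeasure_map Complex.measurable_re.aemeasurable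
    rw [lintegral_map _ Complex.measurable_re]
    · congr 1
      funext z
      rw [lintegral_map _ Complex.measurable_re]
      · rfl
      · exact (measurable_kap _).comp (measurable_const.prodMk measurable_id)
    · exact (measurable_kap _).lintegral_prod_right'

/-- Negative answer to Q1: a non-polar compact subset `K` of the real line, of Hausdorff dimension
at least `1/5`, whose equilibrium measure is the `h`-Hausdorff measure restricted to `K` for a
strictly increasing dimension function `h`. -/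
theorem result : ∃ (K : Set ℂ) (h : ℝ → ℝ) (μ : Measure ℂ),
    IsCompact K ∧ (∀ z ∈ K, z.im = 0) ∧ NonPolar K ∧ IsDimensionFunction h ∧
    IsEquilibrium μ K ∧ (∀ B : Set ℂ, MeasurableSet B → μ B = Lam h (B ∩ K)) ∧
    ((1 / 5 : ℝ≥0) : ℝ≥0∞) ≤ dimH K := by
  have hA0 : 0 ≤ Real.log 2 := Real.log_nonneg (by norm_num)
  have hγ := good_gam
  refine ⟨KC gam, hh gam, muC gam, isCompact_KC hγ, fun z hz => (mem_KC hγ hz).1, ?_, hh_dim hγ,
    ⟨muC_carried hγ, ?_⟩, ?_, ?_⟩
  · refine ⟨muC gam, muC_carried hγ, ?_⟩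
    rw [energy_eq hγ (muC_carried hγ), kapC_map hγ]
    have h1 := energy_mu_lt_top hγ slow_gam hA0
    obtain ⟨c, hc⟩ : ∃ c : ℝ≥0, ∫⁻ x, ∫⁻ y, kap (Real.log 2) x y ∂(mu gam) ∂(mu gam) = c :=
      ⟨_, (ENNReal.coe_toNNReal h1.ne).symm⟩
    rw [hc, EReal.coe_nnreal_eq_coe_real, ← EReal.coe_sub]
    exact EReal.coe_lt_top _
  · intro ν hν
    rw [energy_eq hγ (muC_carried hγ), energy_eq hγ hν]
    obtain ⟨ν₀, hp, h0, he⟩ := kapC_re hγ hν
    rw [kapC_map hγ, he]
    apply EReal.sub_le_sub _ le_rfl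
    rw [EReal.coe_ennreal_le_coe_ennreal_iff]
    exact energy_mu_le hγ slow_gam le_rfl h0
  · intro B hB
    have e1 : B ∩ KC gam = (fun x : ℝ => (x : ℂ)) '' ((fun x : ℝ => (x : ℂ)) ⁻¹' B ∩ K gam) := by
      unfold KC
      rw [Set.image_preimage_inter]
    have e2 : MeasurableSet ((fun x : ℝ => (x : ℂ)) ⁻¹' B) := measurable_coe hB
    rw [e1]
    unfold muC
    rw [Measure.map_apply measurable_coe hB, mu_eq hγ sparse_gam, Measure.restrict_apply e2]
    exact le_antisymm (mkMetric_le_Lam hγ _) (Lam_le_mkMetric hγ _)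
  · unfold KC
    have h1 : dimH ((fun x : ℝ => (x : ℂ)) '' K gam) = dimH (K gam) :=
      Complex.isometry_ofReal.dimH_image _
    rw [h1]
    exact dimH_K_pos hγ le_Gam_gam

end Pool.Agent.Results.MP_816d1e_an.Full
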